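import Pool.Agent.Q74.PD.Stm6
import Pool.Agent.H499R2.NDHarmLimit

/-! # Project PD (helper74), job Rat: convergence with a rate -/

set_option autoImplicit false

namespace Pool.Agent.Q176.PD.Rat

open Filter Topology MeasureTheory
open Pool.Agent.Q74.PD
open Pool.Agent.H499R2.HL (II II_cauchy intble a_pos b_pos b_lt_a a_lt_one b_lt_one)

/-- the modulus -/
noncomputable def w (c t : ℝ) : ℝ := Real.exp (-c * √(Real.log t))

theorem w_pos (c t : ℝ) : 0 < w c t := Real.exp_pos _

theorem w_anti {c t t' : ℝ} (hc : 0 ≤ c) (ht : 1 ≤ t) (htt : t ≤ t') : w c t' ≤ w c t := by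
  unfold w
  apply Real.exp_le_exp.2
  have h1 : √(Real.log t) ≤ √(Real.log t') :=
    Real.sqrt_le_sqrt (Real.log_le_log (by linarith) htt)
  nlinarith

theorem w_exp {c c' t : ℝ} (hc : c ≤ c') : w c' t ≤ w c t := by
  unfold w
  apply Real.exp_le_exp.2
  have := Real.sqrt_nonneg (Real.log t)
  nlinarith

/-- powers are small -/
theorem pow_w {r t : ℝ} (hr : 0 ≤ r) (ht : Real.exp 1 ≤ t) : t ^ (-r) ≤ w r t := by
  have ht0 : 0 < t := (Real.exp_pos 1).trans_le ht
  unfold w
  rw [Real.rpow_def_of_pos ht0]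
  apply Real.exp_le_exp.2
  have h1 : 1 ≤ Real.log t := by
    rw [Real.le_log_iff_exp_le ht0]
    exact ht
  have h2 : √(Real.log t) ≤ Real.log t := by
    rw [Real.sqrt_le_left (by linarith)]
    nlinarith
  nlinarith

variable {F : ℝ → ℝ} {L C₀ Cs : ℝ}

/-- shifts upwards -/
theorem up {s : ℝ} (hs : 0 ≤ s) {t : ℝ} (ht : 1 ≤ t) (hsh : ∀ p, 1 ≤ p → |F (p + s) - F p| ≤ Cs / √p) (hCs : 0 ≤ Cs)
    (m : ℕ) : |F (t + m * s) - F t| ≤ m * (Cs / √t) := by
  induction m with
  | zero => simp
  | succ m ih =>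
    have h1 : t ≤ t + m * s := by
      have : 0 ≤ (m : ℝ) * s := by positivity
      linarith
    have h2 := hsh (t + m * s) (ht.trans h1)
    have h3 : Cs / √(t + m * s) ≤ Cs / √t :=
      div_le_div_of_nonneg_left hCs (Real.sqrt_pos.2 (by linarith)) (Real.sqrt_le_sqrt h1)
    have h4 : t + ((m + 1 : ℕ) : ℝ) * s = t + m * s + s := by
      push_cast
      ring
    rw [h4]
    have h5 := abs_add_le (F (t + m * s + s) - F (t + m * s)) (F (t + m * s) - F t)
    rw [sub_add_sub_cancel] at h5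
    push_cast
    linarith

/-- shifts by `m s - l s'` -/
theorem both {s s' : ℝ} (hs : 0 ≤ s) (hs' : 0 ≤ s') {t : ℝ} (ht : 1 ≤ t)
    (hsh : ∀ p, 1 ≤ p → |F (p + s) - F p| ≤ Cs / √p) (hsh' : ∀ p, 1 ≤ p → |F (p + s') - F p| ≤ Cs / √p)
    (hCs : 0 ≤ Cs) (m l : ℕ) (hml : 0 ≤ m * s - l * s') :
    |F (t + (m * s - l * s')) - F t| ≤ (m + l) * (Cs / √t) := by
  have h1 := up hs ht hsh hCs m
  obtain ⟨p, hp⟩ : ∃ p, p = t + (m * s - l * s') := ⟨_, rfl⟩
  have hpt : t ≤ p := by
    rw [hp]
    linarith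
  have h2 := up hs' (ht.trans hpt) hsh' hCs l
  have h3 : p + l * s' = t + m * s := by
    rw [hp]
    ring
  rw [h3] at h2
  rw [← hp]
  have h4 : Cs / √p ≤ Cs / √t :=
    div_le_div_of_nonneg_left hCs (Real.sqrt_pos.2 (by linarith)) (Real.sqrt_le_sqrt hpt)
  have h5 : (l : ℝ) * (Cs / √p) ≤ l * (Cs / √t) := mul_le_mul_of_nonneg_left h4 (Nat.cast_nonneg l)
  have h6 := abs_add_le (F p - F (t + m * s)) (F (t + m * s) - F t)
  rw [sub_add_sub_cancel, abs_sub_comm (F p) (F (t + m * s))] at h6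
  linarith

/-- close points -/
theorem close (h0 : ∀ t, 0 ≤ F t) (h1 : ∀ t, F t ≤ 1) (hL : 0 ≤ L)
    (hlip : ∀ t s, 1 ≤ t → 0 ≤ s → s ≤ 1 → |F (t + s) - F t| ≤ L * (s + Real.exp (-t)))
    {t p p' : ℝ} (ht : 1 ≤ t) (hp : t ≤ p) (hp' : t ≤ p') :
    |F p - F p'| ≤ (L + 1) * (|p - p'| + Real.exp (-t)) := by
  have key : ∀ q q', t ≤ q → q ≤ q' → |F q' - F q| ≤ (L + 1) * (|q' - q| + Real.exp (-t)) := by
    intro q q' hq hqq
    rw [abs_of_nonneg (by linarith : 0 ≤ q' - q)]
    have he := Real.exp_pos (-t)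
    rcases le_or_gt (q' - q) 1 with h2 | h2
    · have h3 := hlip q (q' - q) (ht.trans hq) (by linarith) h2
      rw [add_sub_cancel] at h3
      have h4 : Real.exp (-q) ≤ Real.exp (-t) := Real.exp_le_exp.2 (by linarith)
      have h5 : L * (q' - q + Real.exp (-q)) ≤ L * (q' - q + Real.exp (-t)) :=
        mul_le_mul_of_nonneg_left (by linarith) hL
      linarith
    · have h3 : |F q' - F q| ≤ 1 := by
        rw [abs_le]
        constructor <;> linarith [h0 q, h0 q', h1 q, h1 q']
      have h4 : 0 ≤ L * (q' - q + Real.exp (-t)) := mul_nonneg hL (by linarith)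
      linarith
  rcases le_total p p' with h | h
  · rw [abs_sub_comm, abs_sub_comm p]
    exact key p p' hp h
  · exact key p' p hp' h

/-- small variation on unit intervals -/
theorem small {c C : ℝ} (hc : 0 < c) (hC : 0 < C) (hdio : ∀ M : ℝ, 1 ≤ M → ∀ h : ℝ, 0 ≤ h → h ≤ 1 →
      ∃ m l : ℕ, (m : ℝ) ≤ M ∧ (l : ℝ) ≤ M ∧ |h - abs (m * Real.log 2 - l * Real.log 3)| ≤ C * Real.exp (-c * √(Real.log M)))
    (h0 : ∀ t, 0 ≤ F t) (h1 : ∀ t, F t ≤ 1) (hL : 0 ≤ L)
    (hlip : ∀ t s, 1 ≤ t → 0 ≤ s → s ≤ 1 → |F (t + s) - F t| ≤ L * (s + Real.exp (-t)))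
    (hCs : 0 ≤ Cs) (hsh : ∀ t, 1 ≤ t → |F (t + Real.log 2) - F t| ≤ Cs / √t ∧ |F (t + Real.log 3) - F t| ≤ Cs / √t)
    {t h : ℝ} (ht : 256 ≤ t) (hh : 0 ≤ h) (hh1 : h ≤ 1) :
    |F (t + h) - F t| ≤ (Cs + (L + 1) * (C + 1)) * w (min (1 / 4) (c / 3)) t := by
  have hlog2 : 0 < Real.log 2 := Real.log_pos (by norm_num)
  have hlog3 : 0 < Real.log 3 := Real.log_pos (by norm_num)
  have ht0 : 0 < t := by linarith
  have ht1 : 1 ≤ t := by linarith
  have hte : Real.exp 1 ≤ t := by
    have := Real.exp_one_lt_d9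
    linarith
  obtain ⟨M, hM⟩ : ∃ M : ℝ, M = t ^ (1 / 4 : ℝ) / 2 := ⟨_, rfl⟩
  have h256 : (256 : ℝ) ^ (1 / 4 : ℝ) = 4 := by
    rw [show (256 : ℝ) = 4 ^ (4 : ℝ) by norm_num, ← Real.rpow_mul (by norm_num : (0 : ℝ) ≤ 4)]
    norm_num
  have h4 : (4 : ℝ) ≤ t ^ (1 / 4 : ℝ) :=
    h256.symm.le.trans (Real.rpow_le_rpow (by norm_num : (0 : ℝ) ≤ 256) ht (by norm_num))
  have hM1 : 1 ≤ M := by
    rw [hM]
    linarith
  obtain ⟨m, l, hm, hl, hml⟩ := hdio M hM1 h hh hh1
  obtain ⟨u, hu⟩ : ∃ u, u = abs ((m : ℝ) * Real.log 2 - l * Real.log 3) := ⟨_, rfl⟩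
  rw [← hu] at hml
  have hu0 : 0 ≤ u := by
    rw [hu]
    exact abs_nonneg _
  have hst : 0 < √t := Real.sqrt_pos.2 ht0
  -- the shifts
  have hshift : |F (t + u) - F t| ≤ Cs * w (1 / 4) t := by
    have h5 : |F (t + u) - F t| ≤ (m + l) * (Cs / √t) := by
      rcases le_total 0 ((m : ℝ) * Real.log 2 - l * Real.log 3) with h6 | h6
      · rw [hu, abs_of_nonneg h6]
        exact both hlog2.le hlog3.le ht1 (fun p hp => (hsh p hp).1) (fun p hp => (hsh p hp).2) hCs m l h6
      · rw [hu, abs_of_nonpos h6, neg_sub]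
        have h7 := both hlog3.le hlog2.le ht1 (fun p hp => (hsh p hp).2) (fun p hp => (hsh p hp).1) hCs l m
          (by linarith)
        rw [add_comm (m : ℝ)]
        exact h7
    have h6 : (m + l) * (Cs / √t) ≤ t ^ (1 / 4 : ℝ) * (Cs / √t) := by
      refine mul_le_mul_of_nonneg_right ?_ (by positivity)
      rw [hM] at hm hl
      linarith
    have h7 : t ^ (1 / 4 : ℝ) * (Cs / √t) = Cs * t ^ (-(1 / 4) : ℝ) := by
      rw [Real.sqrt_eq_rpow]
      have h8 : t ^ (-(1 / 4) : ℝ) = t ^ (1 / 4 : ℝ) / t ^ (1 / 2 : ℝ) := by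
        rw [← Real.rpow_sub ht0]
        norm_num
      rw [h8]
      ring
    rw [h7] at h6
    exact h5.trans (h6.trans (mul_le_mul_of_nonneg_left (pow_w (by norm_num) hte) hCs))
  -- the error
  have hlogM : Real.log t / 8 ≤ Real.log M := by
    rw [hM, Real.log_div (by positivity) (by norm_num), Real.log_rpow ht0]
    have h5 : 8 * Real.log 2 ≤ Real.log t := by
      have h6 : 8 * Real.log 2 = Real.log (2 ^ 8) := by
        rw [Real.log_pow]
        norm_num
      rw [h6]
      exact Real.log_le_log (by norm_num) (by norm_num; exact ht)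
    linarith
  have hlt : 0 ≤ Real.log t := Real.log_nonneg ht1
  have hsM : √(Real.log t) / 3 ≤ √(Real.log M) := by
    have h5 : √(Real.log t) / 3 = √(Real.log t / 9) := by
      rw [Real.sqrt_div hlt]
      congr 1
      rw [show (9 : ℝ) = 3 ^ 2 by norm_num, Real.sqrt_sq (by norm_num)]
    rw [h5]
    exact Real.sqrt_le_sqrt (by linarith)
  have herr : C * Real.exp (-c * √(Real.log M)) ≤ C * w (c / 3) t := by
    refine mul_le_mul_of_nonneg_left ?_ hC.le
    unfold w
    apply Real.exp_le_exp.2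
    nlinarith
  have hexp : Real.exp (-t) ≤ w (1 / 4) t := by
    refine le_trans ?_ (pow_w (by norm_num) hte)
    rw [Real.rpow_def_of_pos ht0]
    apply Real.exp_le_exp.2
    have h5 : Real.log t ≤ t := by
      have := Real.log_le_sub_one_of_pos ht0
      linarith
    linarith
  have h9 := close h0 h1 hL hlip ht1 (by linarith : t ≤ t + h) (by linarith : t ≤ t + u)
  have h10 : t + h - (t + u) = h - u := by ring
  rw [h10] at h9
  have h11 := abs_add_le (F (t + h) - F (t + u)) (F (t + u) - F t)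
  rw [sub_add_sub_cancel] at h11
  have hw1 : w (1 / 4) t ≤ w (min (1 / 4) (c / 3)) t := w_exp (min_le_left _ _)
  have hw2 : w (c / 3) t ≤ w (min (1 / 4) (c / 3)) t := w_exp (min_le_right _ _)
  have h12 : (L + 1) * (|h - u| + Real.exp (-t)) ≤ (L + 1) * ((C + 1) * w (min (1 / 4) (c / 3)) t) := by
    refine mul_le_mul_of_nonneg_left ?_ (by linarith)
    have h13 := mul_le_mul_of_nonneg_left hw2 hC.le
    linarith
  have h14 := mul_le_mul_of_nonneg_left hw1 hCs
  linarith

theorem rat (hs : S_Shf) (hd : S_Dio) : S_Rat := by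
  obtain ⟨c, C, hc, hC, hdio⟩ := hd
  intro L C₀ hL hC₀
  obtain ⟨Cs, hCs, hshf⟩ := hs C₀ hC₀
  have ha := a_pos
  have hb := b_pos
  have hba := b_lt_a
  have ha1 := a_lt_one
  have hb1 := b_lt_one
  obtain ⟨e, he⟩ : ∃ e, e = min (1 / 4) (c / 3) := ⟨_, rfl⟩
  have he0 : 0 < e := by
    rw [he]
    exact lt_min (by norm_num) (by positivity)
  have he1 : e ≤ 1 / 4 := by
    rw [he]
    exact min_le_left _ _
  obtain ⟨K, hK⟩ : ∃ K, K = Cs + (L + 1) * (C + 1) + 1 / w e 256 := ⟨_, rfl⟩
  have hK0 : 0 < K := by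
    rw [hK]
    have := w_pos e 256
    positivity
  obtain ⟨d, hd⟩ : ∃ d, d = Real.log 2 - Real.log (3 / 2) := ⟨_, rfl⟩
  have hd0 : 0 < d := by
    rw [hd]
    linarith
  refine ⟨e / 2, (4 * K + 2 * C₀) / d + 1 / w (e / 2) 4, by positivity, ?_, ?_⟩
  · have := w_pos (e / 2) 4
    positivity
  intro F hF h0 h1 hlip hhar t t' ht htt
  have hsh := hshf F h0 h1 hhar
  -- the modulus for all `t`
  have hω : ∀ t h : ℝ, 1 ≤ t → 0 ≤ h → h ≤ 1 → |F (t + h) - F t| ≤ K * w e t := by
    intro t h ht hh hh1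
    have hw := w_pos e 256
    rcases le_or_gt 256 t with h2 | h2
    · have h3 := small hc hC hdio h0 h1 hL.le hlip hCs.le hsh h2 hh hh1
      rw [← he] at h3
      refine h3.trans ?_
      rw [hK]
      refine mul_le_mul_of_nonneg_right ?_ (w_pos _ _).le
      have : 0 ≤ 1 / w e 256 := by positivity
      linarith
    · have h3 : |F (t + h) - F t| ≤ 1 := by
        rw [abs_le]
        constructor <;> linarith [h0 t, h0 (t + h), h1 t, h1 (t + h)]
      have h4 : w e 256 ≤ w e t := w_anti he0.le ht h2.le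
      have h5 : 1 ≤ 1 / w e 256 * w e t := by
        rw [div_mul_eq_mul_div, one_mul, le_div_iff₀ hw]
        linarith
      have h6 : 1 / w e 256 * w e t ≤ K * w e t := by
        refine mul_le_mul_of_nonneg_right ?_ (w_pos _ _).le
        rw [hK]
        have : 0 ≤ Cs + (L + 1) * (C + 1) := by positivity
        linarith
      linarith
  -- the conserved quantity
  have hJ : ∀ t : ℝ, 4 ≤ t → |II F t - d * F t| ≤ 2 * (K * w e (t / 2)) := by
    intro t ht
    have hi := intble hF h0 h1
    have hhalf : 1 ≤ t / 2 := by linarith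
    have i1 : |(∫ u in (t - Real.log 2)..t, F u) - Real.log 2 * F t| ≤ K * w e (t / 2) := by
      have h2 : (∫ u in (t - Real.log 2)..t, F u) - Real.log 2 * F t = ∫ u in (t - Real.log 2)..t, (F u - F t) := by
        rw [intervalIntegral.integral_sub (hi _ _) intervalIntegrable_const, intervalIntegral.integral_const,
          smul_eq_mul]
        ring
      rw [h2]
      have h3 := intervalIntegral.norm_integral_le_of_norm_le_const (a := t - Real.log 2) (b := t)
        (f := fun u => F u - F t) (C := K * w e (t / 2)) (by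
          intro u hu
          rw [Set.uIoc_of_le (by linarith)] at hu
          have h4 := hω u (t - u) (by linarith [hu.1]) (by linarith [hu.2]) (by linarith [hu.1])
          rw [add_sub_cancel, abs_sub_comm] at h4
          refine h4.trans (mul_le_mul_of_nonneg_left ?_ hK0.le)
          exact w_anti he0.le hhalf (by linarith [hu.1]))
      have h5 : |t - (t - Real.log 2)| = Real.log 2 := by
        rw [sub_sub_cancel, abs_of_pos ha]
      rw [h5] at h3
      have h6 : 0 ≤ K * w e (t / 2) := mul_nonneg hK0.le (w_pos _ _).le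
      calc |∫ u in (t - Real.log 2)..t, (F u - F t)| ≤ K * w e (t / 2) * Real.log 2 := h3
        _ ≤ K * w e (t / 2) * 1 := mul_le_mul_of_nonneg_left ha1.le h6
        _ = _ := mul_one _
    have i2 : |(∫ u in t..(t + Real.log (3 / 2)), F u) - Real.log (3 / 2) * F t| ≤ K * w e (t / 2) := by
      have h2 : (∫ u in t..(t + Real.log (3 / 2)), F u) - Real.log (3 / 2) * F t =
          ∫ u in t..(t + Real.log (3 / 2)), (F u - F t) := by
        rw [intervalIntegral.integral_sub (hi _ _) intervalIntegrable_const, intervalIntegral.integral_const,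
          smul_eq_mul]
        ring
      rw [h2]
      have h3 := intervalIntegral.norm_integral_le_of_norm_le_const (a := t) (b := t + Real.log (3 / 2))
        (f := fun u => F u - F t) (C := K * w e (t / 2)) (by
          intro u hu
          rw [Set.uIoc_of_le (by linarith)] at hu
          have h4 := hω t (u - t) (by linarith) (by linarith [hu.1]) (by linarith [hu.2])
          rw [add_sub_cancel] at h4
          refine h4.trans (mul_le_mul_of_nonneg_left ?_ hK0.le)
          exact w_anti he0.le hhalf (by linarith))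
      have h5 : |t + Real.log (3 / 2) - t| = Real.log (3 / 2) := by
        rw [add_sub_cancel_left, abs_of_pos hb]
      rw [h5] at h3
      have h6 : 0 ≤ K * w e (t / 2) := mul_nonneg hK0.le (w_pos _ _).le
      calc |∫ u in t..(t + Real.log (3 / 2)), (F u - F t)| ≤ K * w e (t / 2) * Real.log (3 / 2) := h3
        _ ≤ K * w e (t / 2) * 1 := mul_le_mul_of_nonneg_left hb1.le h6
        _ = _ := mul_one _
    have h7 : II F t - d * F t = ((∫ u in (t - Real.log 2)..t, F u) - Real.log 2 * F t) -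
        ((∫ u in t..(t + Real.log (3 / 2)), F u) - Real.log (3 / 2) * F t) := by
      rw [hd]
      unfold II
      ring
    rw [h7]
    refine (abs_sub _ _).trans ?_
    linarith
  have hw4 := w_pos (e / 2) 4
  have hwt := w_pos (e / 2) t
  have hfrac : 0 ≤ (4 * K + 2 * C₀) / d := by positivity
  rcases le_or_gt 4 t with h4 | h4
  · have h5 := II_cauchy hF h0 h1 hhar hC₀.le ht (by linarith) htt
    have h6 := hJ t h4
    have h7 := hJ t' (h4.trans htt)
    have h8 : w e (t' / 2) ≤ w e (t / 2) := w_anti he0.le (by linarith) (by linarith)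
    have h9 := mul_le_mul_of_nonneg_left h8 hK0.le
    have h10 : |d * F t - d * F t'| ≤ 4 * (K * w e (t / 2)) + 2 * C₀ / t := by
      have e1 : d * F t - d * F t' = -(II F t - d * F t) + (II F t' - d * F t') - (II F t' - II F t) := by ring
      rw [e1]
      refine (abs_sub _ _).trans ?_
      have e2 := abs_add_le (-(II F t - d * F t)) (II F t' - d * F t')
      rw [abs_neg] at e2
      linarith
    have hlt : 0 ≤ Real.log t := Real.log_nonneg ht
    have hw : w e (t / 2) ≤ w (e / 2) t := by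
      unfold w
      apply Real.exp_le_exp.2
      have h11 : Real.log t / 4 ≤ Real.log (t / 2) := by
        rw [Real.log_div (by linarith) (by norm_num)]
        have h12 : 2 * Real.log 2 ≤ Real.log t := by
          have h13 : 2 * Real.log 2 = Real.log (2 ^ 2) := by
            rw [Real.log_pow]
            norm_num
          rw [h13]
          exact Real.log_le_log (by norm_num) (by norm_num; exact h4)
        linarith
      have h12 : √(Real.log t) / 2 ≤ √(Real.log (t / 2)) := by
        have h13 : √(Real.log t) / 2 = √(Real.log t / 4) := by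
          rw [Real.sqrt_div hlt]
          congr 1
          rw [show (4 : ℝ) = 2 ^ 2 by norm_num, Real.sqrt_sq (by norm_num)]
        rw [h13]
        exact Real.sqrt_le_sqrt h11
      nlinarith
    have hti : 1 / t ≤ w (e / 2) t := by
      have hte : Real.exp 1 ≤ t := by
        have := Real.exp_one_lt_d9
        linarith
      have h11 := pow_w (r := 1) zero_le_one hte
      rw [Real.rpow_neg_one] at h11
      rw [one_div]
      exact h11.trans (w_exp (by linarith))
    have h11 : |d * F t - d * F t'| = d * |F t - F t'| := by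
      rw [← mul_sub, abs_mul, abs_of_pos hd0]
    rw [h11] at h10
    have h12 : d * |F t - F t'| ≤ (4 * K + 2 * C₀) * w (e / 2) t := by
      have h13 := mul_le_mul_of_nonneg_left hw hK0.le
      have h14 := mul_le_mul_of_nonneg_left hti (by positivity : 0 ≤ 2 * C₀)
      have h15 : 2 * C₀ / t = 2 * C₀ * (1 / t) := by ring
      rw [h15] at h10
      linarith
    have h13 : |F t - F t'| ≤ (4 * K + 2 * C₀) / d * w (e / 2) t := by
      rw [div_mul_eq_mul_div, le_div_iff₀ hd0]
      linarith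
    refine h13.trans ?_
    have h14 : w (e / 2) t = Real.exp (-(e / 2) * √(Real.log t)) := rfl
    rw [← h14]
    refine mul_le_mul_of_nonneg_right ?_ hwt.le
    have : 0 ≤ 1 / w (e / 2) 4 := by positivity
    linarith
  · have h5 : |F t - F t'| ≤ 1 := by
      rw [abs_le]
      constructor <;> linarith [h0 t, h0 t', h1 t, h1 t']
    have h6 : w (e / 2) 4 ≤ w (e / 2) t := w_anti (by positivity) ht h4.le
    have h7 : 1 ≤ 1 / w (e / 2) 4 * w (e / 2) t := by
      rw [div_mul_eq_mul_div, one_mul, le_div_iff₀ hw4]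
      linarith
    have h14 : w (e / 2) t = Real.exp (-(e / 2) * √(Real.log t)) := rfl
    rw [← h14, add_mul]
    have h8 := mul_nonneg hfrac hwt.le
    linarith

end Pool.Agent.Q176.PD.Rat
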